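import Mathlib

/-!
Tools for the parity of the number of irreducible factors of a polynomial over a finite field:
Frobenius cycles, Vandermonde determinants, a resultant identity, and the least common multiple of
the polynomials of bounded degree.
-/

namespace Pool.Agent.P.MP_3bc45c_nt.FF

open Polynomial Finset Lagrange

/-- The roots of an irreducible polynomial form one cycle of the Frobenius map. -/
theorem frob_cycle {K L : Type*} [Field K] [Fintype K] [Field L] [Algebra K L] [IsAlgClosed L]
    {P : K[X]} (hP : Irreducible P) {d : ℕ} (hd : P.natDegree = d + 1) :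
    ∃ α : Fin (d + 1) → L, Function.Injective α ∧ (∀ i, aeval (α i) P = 0) ∧
      ∀ i, FiniteField.frobeniusAlgHom K L (α i) = α (finRotate (d + 1) i) := by
  set q := Fintype.card K with hq
  have hdeg : P.degree ≠ 0 := by
    rw [degree_eq_natDegree hP.ne_zero, hd]; exact_mod_cast Nat.succ_ne_zero d
  obtain ⟨x, hx⟩ := IsAlgClosed.exists_aeval_eq_zero L P hdeg
  set σ := FiniteField.frobeniusAlgHom K L with hσ
  have hσx : ∀ (j : ℕ) (y : L), (σ ^ j) y = y ^ q ^ j := by
    intro j y
    rw [AlgHom.coe_pow, hσ, FiniteField.coe_frobeniusAlgHom, pow_iterate]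
  have key : ∀ j : ℕ, (σ ^ j) x = x ↔ d + 1 ∣ j := by
    intro j
    rw [← hd, hP.natDegree_dvd_iff_dvd_X_pow_card_pow_sub_X, ← hP.dvd_iff_aeval_eq_zero hx,
      hσx, Nat.card_eq_fintype_card]
    simp [sub_eq_zero, hq]
  have hinj : ∀ j : ℕ, Function.Injective (σ ^ j) := fun j => (σ ^ j).toRingHom.injective
  have aux : ∀ i j : Fin (d + 1), (i : ℕ) ≤ j → (σ ^ (i : ℕ)) x = (σ ^ (j : ℕ)) x → i = j := by
    intro i j hij h
    obtain ⟨c, hc⟩ := Nat.exists_eq_add_of_le hij
    rw [hc, pow_add, AlgHom.mul_apply] at h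
    have h2 := (key c).1 (hinj _ h).symm
    have h3 : c = 0 := Nat.eq_zero_of_dvd_of_lt h2 (by have := j.2; omega)
    exact Fin.ext (by omega)
  refine ⟨fun i => (σ ^ (i : ℕ)) x, ?_, ?_, ?_⟩
  · intro i j h
    rcases le_total (i : ℕ) j with hij | hij
    · exact aux i j hij h
    · exact (aux j i hij h.symm).symm
  · intro i
    rw [aeval_algHom_apply, hx, map_zero]
  · intro i
    have : σ ((σ ^ (i : ℕ)) x) = (σ ^ ((i : ℕ) + 1)) x := by
      rw [pow_succ', AlgHom.mul_apply]
    simp only [this]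
    by_cases h : i = Fin.last d
    · subst h
      simp [(key (d + 1)).2 dvd_rfl]
    · rw [coe_finRotate_of_ne_last h]

theorem eq_nodal {A : Type*} [CommRing A] [IsDomain A] {n : ℕ} {P : A[X]} (hP : P.Monic)
    (hn : P.natDegree = n) {a : Fin n → A} (ha : Function.Injective a)
    (hr : ∀ i, P.eval (a i) = 0) : P = nodal univ a := by
  rcases Nat.eq_zero_or_pos n with rfl | hpos
  · rw [hP.natDegree_eq_zero.1 hn]; simp [nodal]
  have hm : (nodal univ a).Monic := nodal_monic
  have hd : (nodal univ a).natDegree = n := by rw [natDegree_nodal]; simp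
  rw [← sub_eq_zero]
  refine eq_zero_of_natDegree_lt_card_of_eval_eq_zero _ ha (fun i => ?_) ?_
  · rw [eval_sub, hr, eval_nodal_at_node (mem_univ i), sub_zero]
  · rw [Fintype.card_fin]
    by_cases h0 : P - nodal univ a = 0
    · rw [h0]; simpa using hpos
    have h1 : P.degree = n := by rw [degree_eq_natDegree hP.ne_zero, hn]
    rw [natDegree_lt_iff_degree_lt h0, ← h1]
    refine degree_sub_lt_left ?_ hP.ne_zero (by rw [hP.leadingCoeff, hm.leadingCoeff])
    rw [degree_eq_natDegree hP.ne_zero, degree_eq_natDegree hm.ne_zero, hn, hd]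

theorem vand_rotate {A : Type*} [CommRing A] (φ : A →+* A) {d : ℕ} {a : Fin (d + 1) → A}
    (h : ∀ i, φ (a i) = a (finRotate (d + 1) i)) :
    φ (Matrix.vandermonde a).det = (-1) ^ d * (Matrix.vandermonde a).det := by
  rw [RingHom.map_det]
  have : φ.mapMatrix (Matrix.vandermonde a) =
      (Matrix.vandermonde a).submatrix (finRotate (d + 1)) id := by
    ext i j
    simp only [RingHom.mapMatrix_apply, Matrix.map_apply, Matrix.vandermonde_apply, map_pow, h,
      Matrix.submatrix_apply, id]
  rw [this, Matrix.det_permute, sign_finRotate]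
  simp

theorem sum_card_Ioi (n : ℕ) : ∑ i : Fin n, #(Ioi i) = n.choose 2 := by
  simp_rw [Fin.card_Ioi]
  rw [Fin.sum_univ_eq_sum_range (fun i => n - 1 - i) n, sum_range_reflect (fun i => i) n,
    sum_range_id, Nat.choose_two_right]

theorem vand_sq {A : Type*} [CommRing A] {n : ℕ} (a : Fin n → A) :
    (Matrix.vandermonde a).det ^ 2 =
      (-1) ^ n.choose 2 * ∏ i, (derivative (nodal univ a)).eval (a i) := by
  have h1 : ∏ i, (derivative (nodal univ a)).eval (a i) = ∏ i, ∏ j ∈ {i}ᶜ, (a i - a j) := by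
    refine prod_congr rfl fun i _ => ?_
    rw [eval_nodal_derivative_eval_node_eq (mem_univ i), eval_nodal, compl_singleton]
  rw [h1, ← prod_prod_Ioi_mul_eq_prod_prod_off_diag (fun j i => a i - a j),
    Matrix.det_vandermonde, ← sum_card_Ioi, ← prod_pow_eq_pow_sum, ← prod_mul_distrib, ← prod_pow]
  refine prod_congr rfl fun i _ => ?_
  rw [← prod_const, ← prod_mul_distrib, ← prod_pow]
  refine prod_congr rfl fun j _ => ?_
  ring

theorem res_nodal {A : Type*} [CommRing A] [Nontrivial A] {n : ℕ} (a : Fin n → A) {B : A[X]}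
    {k : ℕ} (hB : B.natDegree ≤ k) : (nodal univ a).resultant B n k = ∏ i, B.eval (a i) := by
  have hd : (nodal univ a).natDegree = n := by rw [natDegree_nodal]; simp
  have := resultant_prod_left univ (fun i => X - C (a i)) B k (by simp) hB
  rw [← nodal_eq, hd] at this
  rw [this]
  refine prod_congr rfl fun i _ => ?_
  rw [natDegree_X_sub_C, resultant_X_sub_C_left _ _ _ hB]

/-- Reciprocity: products of `B` over the roots of two monic polynomials congruent modulo `B`. -/
theorem prod_eval_recip {A : Type*} [CommRing A] [Nontrivial A] {m e k : ℕ}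
    (a : Fin (m + e) → A) (c : Fin m → A) {B Q : A[X]} (hB : B.natDegree ≤ k)
    (hQ : Q.natDegree + k ≤ m + e) (h : nodal univ a = nodal univ c + B * Q) :
    ∏ i, B.eval (a i) = (-1) ^ (k * e) * B.coeff k ^ e * ∏ j, B.eval (c j) := by
  have hd : (nodal univ c).natDegree = m := by rw [natDegree_nodal]; simp
  rw [← res_nodal a hB, ← res_nodal c hB, h, resultant_add_mul_left _ _ _ _ _ hQ hB,
    resultant_add_left_deg _ _ _ _ _ hd.le]

/-- The product of `X ^ q ^ j - X` over `1 ≤ j ≤ k`. -/
noncomputable def LL (K : Type*) [Field K] [Fintype K] (k : ℕ) : K[X] :=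
  ∏ j ∈ range k, (X ^ Fintype.card K ^ (j + 1) - X)

section LL

variable {K : Type*} [Field K] [Fintype K]

theorem monic_factor (j : ℕ) : (X ^ Fintype.card K ^ (j + 1) - X : K[X]).Monic := by
  refine Monic.sub_of_left (monic_X_pow _) ?_
  rw [degree_X, degree_X_pow]
  exact_mod_cast Nat.one_lt_pow (Nat.succ_ne_zero j) Fintype.one_lt_card

theorem LL_monic (k : ℕ) : (LL K k).Monic := monic_prod_of_monic _ _ fun j _ => monic_factor j

theorem LL_natDegree (k : ℕ) : (LL K k).natDegree = ∑ j ∈ range k, Fintype.card K ^ (j + 1) := by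
  rw [LL, natDegree_prod_of_monic _ _ fun j _ => monic_factor j]
  exact sum_congr rfl fun j _ =>
    FiniteField.X_pow_card_pow_sub_X_natDegree_eq _ (Nat.succ_ne_zero j) Fintype.one_lt_card

theorem LL_geom (k : ℕ) : (Fintype.card K - 1) * ((LL K k).natDegree + 1) + 1 =
    Fintype.card K ^ (k + 1) := by
  rw [LL_natDegree]
  obtain ⟨r, hr⟩ : ∃ r, Fintype.card K = r + 1 := ⟨_, (Nat.succ_pred_eq_of_pos Fintype.card_pos).symm⟩
  rw [hr, Nat.add_sub_cancel]
  induction k with
  | zero => simp
  | succ k ih => rw [sum_range_succ, pow_succ (r + 1) (k + 1)]; nlinarith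

theorem LL_ge (k : ℕ) : 2 * k ≤ (LL K k).natDegree := by
  rw [LL_natDegree]
  calc 2 * k = ∑ _j ∈ range k, 2 := by simp [mul_comm]
    _ ≤ _ := sum_le_sum fun j _ =>
      le_trans Fintype.one_lt_card (Nat.le_self_pow (Nat.succ_ne_zero j) _)

theorem dvd_LL {k : ℕ} {t : K[X]} (ht : t ≠ 0) (hk : t.natDegree ≤ k) : t ∣ LL K k := by
  classical
  rw [UniqueFactorizationMonoid.dvd_iff_emultiplicity_le ht]
  intro π hπ
  refine emultiplicity_le_emultiplicity_iff.2 fun e he => ?_
  have hi := hπ.irreducible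
  have hd : 0 < π.natDegree := hi.natDegree_pos
  have h1 : e * π.natDegree ≤ k := by
    have := natDegree_le_of_dvd he ht
    rw [natDegree_pow] at this
    omega
  set d := π.natDegree
  have hinj : Set.InjOn (fun i => (i + 1) * d - 1) (range e : Set ℕ) := by
    intro i _ j _ h
    have h2 : 0 < (i + 1) * d := by positivity
    have h3 : 0 < (j + 1) * d := by positivity
    have h4 : (i + 1) * d = (j + 1) * d := by simp only at h; omega
    have := Nat.eq_of_mul_eq_mul_right hd h4
    omega
  calc π ^ e = ∏ _i ∈ range e, π := by simp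
    _ ∣ ∏ i ∈ range e, (X ^ Fintype.card K ^ ((i + 1) * d - 1 + 1) - X) := by
      refine prod_dvd_prod_of_dvd _ _ fun i _ => ?_
      rw [← Nat.card_eq_fintype_card, ← hi.natDegree_dvd_iff_dvd_X_pow_card_pow_sub_X,
        Nat.sub_add_cancel (Nat.succ_le_of_lt (by positivity))]
      exact dvd_mul_left _ _
    _ = ∏ j ∈ (range e).image (fun i => (i + 1) * d - 1),
          (X ^ Fintype.card K ^ (j + 1) - X : K[X]) := by rw [prod_image hinj]
    _ ∣ LL K k := by
      refine prod_dvd_prod_of_subset _ _ _ fun j hj => ?_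
      obtain ⟨i, hi, rfl⟩ := mem_image.1 hj
      have h2 : (i + 1) * d ≤ e * d := Nat.mul_le_mul_right _ (mem_range.1 hi)
      have h3 : 0 < (i + 1) * d := by positivity
      exact mem_range.2 (by omega)

/-- A reducible `F` of degree at most `2 k + 1` has a small factor dividing `LL K k`. -/
theorem not_irreducible_of_small {k : ℕ} {F G : K[X]} (hF : F.Monic) (hF1 : F ≠ 1)
    (hd : F.natDegree ≤ 2 * k + 1) (hG : G.Monic) (hlt : F.natDegree < G.natDegree)
    (hL : LL K k ∣ G) (hred : ¬ Irreducible F) : ¬ Irreducible (G + F) := by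
  rw [hF.irreducible_iff_lt_natDegree_lt hF1] at hred
  push Not at hred
  obtain ⟨d, hdm, hdd, hdF⟩ := hred
  rw [mem_Ioc] at hdd
  have hlt' : F.degree < G.degree := degree_lt_degree hlt
  have hm : (G + F).Monic := hG.add_of_left hlt'
  have hn : (G + F).natDegree = G.natDegree := natDegree_add_eq_left_of_natDegree_lt hlt
  have h1 : G + F ≠ 1 := fun h => by rw [h, natDegree_one] at hn; omega
  rw [hm.irreducible_iff_lt_natDegree_lt h1]
  intro h
  refine h d hdm (mem_Ioc.2 ⟨hdd.1, by rw [hn]; omega⟩) ?_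
  exact dvd_add ((dvd_LL hdm.ne_zero (by omega)).trans hL) hdF

end LL

end Pool.Agent.P.MP_3bc45c_nt.FF
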