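import Pool.Agent.P.MP_3bc45c_nt.FF.Basic

/-!
Characteristic two: the parity of the number of irreducible factors of `F + F'^2 h^4` is opposite
to that of `F` (a form of the theorems of Stickelberger and Swan, proved with Witt vectors).
-/

namespace Pool.Agent.P.MP_3bc45c_nt.FF

open Polynomial hiding constantCoeff constantCoeff_apply ker_constantCoeff constantCoeff_surjective
open Finset Lagrange WittVector

section

variable {K L : Type*} [Field K] [Fintype K] [Field L] [Algebra K L] [IsAlgClosed L]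
  [CharP K 2] [CharP L 2]

local instance : Fact (Nat.Prime 2) := Nat.fact_prime_two

omit [Fintype K] [IsAlgClosed L] [CharP K 2] [CharP L 2] in
theorem cc_map (x : WittVector 2 K) :
    constantCoeff (WittVector.map (algebraMap K L) x) = algebraMap K L (constantCoeff x) := by
  simp [constantCoeff_apply, map_coeff]

theorem cc_eq_zero {x : WittVector 2 L} (h : constantCoeff x = 0) : ∃ y, x = 2 * y := by
  have : x ∈ RingHom.ker (constantCoeff : WittVector 2 L →+* L) := h
  rw [ker_constantCoeff, Ideal.mem_span_singleton] at this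
  exact_mod_cast this

omit [CharP K 2] in
theorem hensel_cycle {P : (WittVector 2 K)[X]} (hP : P.Monic) {d : ℕ}
    (hd : P.natDegree = d + 1) (hi : Irreducible (P.map constantCoeff)) :
    ∃ a : Fin (d + 1) → WittVector 2 L,
      P.map (WittVector.map (algebraMap K L)) = nodal univ a ∧
      Function.Injective (fun i => constantCoeff (a i)) ∧
      ∀ i, WittVector.map (FiniteField.frobeniusAlgHom K L).toRingHom (a i) =
        a (finRotate (d + 1) i) := by
  have hd0 : (P.map (constantCoeff : WittVector 2 K →+* K)).natDegree = d + 1 := by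
    rw [hP.natDegree_map, hd]
  obtain ⟨α, hinj, hroot, hrot⟩ := frob_cycle (L := L) hi hd0
  set Q := P.map (WittVector.map (algebraMap K L)) with hQ
  have hQm : Q.Monic := hP.map _
  have hQd : Q.natDegree = d + 1 := by rw [hP.natDegree_map, hd]
  have hcomp : Q.map constantCoeff = (P.map constantCoeff).map (algebraMap K L) := by
    rw [hQ, Polynomial.map_map, Polynomial.map_map]
    exact congrArg (fun ψ => P.map ψ) (RingHom.ext cc_map)
  have hnod : Q.map constantCoeff = nodal univ α := by
    refine eq_nodal (hQm.map _) (by rw [hQm.natDegree_map, hQd]) hinj fun i => ?_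
    rw [hcomp, eval_map_algebraMap, hroot]
  have hev : ∀ (R : (WittVector 2 L)[X]) (x : WittVector 2 L),
      constantCoeff (R.eval x) = (R.map constantCoeff).eval (constantCoeff x) := by
    intro R x
    rw [eval_map, eval₂_at_apply]
  have hex : ∀ i, ∃ a : WittVector 2 L, Q.eval a = 0 ∧ constantCoeff a = α i := by
    intro i
    obtain ⟨a₀, ha₀⟩ := constantCoeff_surjective (p := 2) (α i)
    have h1 : Q.eval a₀ ∈ Ideal.span {((2 : ℕ) : WittVector 2 L)} := by
      rw [← ker_constantCoeff, RingHom.mem_ker, hev, ha₀, hnod, eval_nodal_at_node (mem_univ i)]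
    have h2 : IsUnit (Q.derivative.eval a₀) := by
      refine isUnit_of_coeff_zero_ne_zero _ ?_
      rw [← constantCoeff_apply, hev, ha₀, ← derivative_map, hnod,
        eval_nodal_derivative_eval_node_eq (mem_univ i)]
      exact eval_nodal_not_at_node fun j hj h => (mem_erase.1 hj).1 (hinj h).symm
    obtain ⟨a, ha, ha'⟩ := HenselianRing.is_henselian Q hQm a₀ h1 (h2.map _)
    refine ⟨a, ha, ?_⟩
    rw [← ker_constantCoeff, RingHom.mem_ker, map_sub, ha₀, sub_eq_zero] at ha'
    exact ha'
  choose a ha ha' using hex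
  have hainj : Function.Injective a := fun i j h => hinj (by rw [← ha', ← ha', h])
  have hQn : Q = nodal univ a := eq_nodal hQm hQd hainj ha
  refine ⟨a, hQn, fun i j h => hinj (by simpa only [ha'] using h), fun i => ?_⟩
  set φ := WittVector.map (p := 2) (FiniteField.frobeniusAlgHom K L).toRingHom with hφ
  have hfix : Q.map φ = Q := by
    rw [hQ, Polynomial.map_map]
    congr 1
    ext x n
    simp [hφ, map_coeff]
  have h1 : Q.eval (φ (a i)) = 0 := by
    rw [← hfix, eval_map, eval₂_at_apply, ha, map_zero]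
  rw [hQn, eval_nodal, prod_eq_zero_iff] at h1
  obtain ⟨j, -, hj⟩ := h1
  rw [sub_eq_zero] at hj
  have h2 : α j = α (finRotate (d + 1) i) := by
    rw [← hrot, ← ha' j, ← hj, ← ha' i]
    simp [hφ, constantCoeff_apply, map_coeff]
  rw [hj, hinj h2]

end

theorem sign_clash {A L : Type*} [CommRing A] [IsDomain A] [Field L] (π : A →+* L) (φ : A →+* A)
    (h2 : (2 : L) = 0) (hne : (2 : A) ≠ 0) (hker : ∀ {x}, π x = 0 → ∃ y, x = 2 * y) {x y z : A}
    (hy : π y ≠ 0) (h : x ^ 2 = y ^ 2 * (1 + 8 * z)) (hx' : φ x = -x)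
    (hy' : φ y = y) : False := by
  have h3 : π (x - y) = 0 := by
    have h4 := congrArg π h
    simp only [map_pow, map_mul, map_add, map_one, map_ofNat] at h4
    refine pow_eq_zero_iff (n := 2) (by norm_num) |>.1 ?_
    rw [map_sub]
    linear_combination h4 + (π y ^ 2 - π x * π y + 4 * π y ^ 2 * π z) * h2
  obtain ⟨w, hw⟩ := hker h3
  have h5 : w * (y + w) = 2 * (y ^ 2 * z) := by
    apply mul_left_cancel₀ hne
    apply mul_left_cancel₀ hne
    have : x = y + 2 * w := by linear_combination hw
    rw [this] at h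
    linear_combination h
  have h6 : π w * π (y + w) = 0 := by
    rw [← map_mul, h5, map_mul, map_ofNat, h2, zero_mul]
  rcases mul_eq_zero.1 h6 with h7 | h7
  · obtain ⟨v, hv⟩ := hker h7
    have h8 : x = y + 4 * v := by linear_combination hw + 2 * hv
    have h9 := congrArg φ h8
    simp only [map_add, map_mul, map_ofNat, hx', hy'] at h9
    have h10 : y = 2 * (-(v + φ v)) := by
      apply mul_left_cancel₀ hne
      linear_combination -h8 - h9
    exact hy (by rw [h10, map_mul, map_ofNat, h2, zero_mul])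
  · obtain ⟨v, hv⟩ := hker h7
    have h8 : x = -y + 4 * v := by linear_combination hw + 2 * hv
    have h9 := congrArg φ h8
    simp only [map_add, map_mul, map_neg, map_ofNat, hx', hy'] at h9
    have h10 : y = 2 * (v + φ v) := by
      apply mul_left_cancel₀ hne
      linear_combination h8 + h9
    exact hy (by rw [h10, map_mul, map_ofNat, h2, zero_mul])

theorem prod_one_add_four {A ι : Type*} [CommRing A] (s : Finset ι) (v : ι → A) :
    ∃ z, ∏ i ∈ s, (1 + 4 * v i) = 1 + 4 * ∑ i ∈ s, v i + 8 * z := by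
  classical
  induction s using Finset.induction with
  | empty => exact ⟨0, by simp⟩
  | insert a s ha ih =>
    obtain ⟨z, hz⟩ := ih
    refine ⟨z + 2 * v a * ∑ i ∈ s, v i + 4 * v a * z, ?_⟩
    rw [prod_insert ha, sum_insert ha, hz]
    ring

theorem int_aux (k G e : ℕ) (he : Odd e) (hG : G % 2 = (k * (k + 1) / 2) % 2) :
    ∃ z : ℤ, (-1) ^ (2 * k + 1).choose 2 * (2 * k + 1) ^ e * (1 + 4 * G) = 1 + 8 * z := by
  have h1 : (2 * k + 1).choose 2 = k * (2 * k + 1) := by
    rw [Nat.choose_two_right, Nat.add_sub_cancel, show (2 * k + 1) * (2 * k) = 2 * (k * (2 * k + 1))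
      by ring, Nat.mul_div_cancel_left _ two_pos]
  obtain ⟨T, hT⟩ : ∃ T, k * (k + 1) = 2 * T := (Nat.even_mul_succ_self k).two_dvd
  rw [hT, Nat.mul_div_cancel_left _ two_pos] at hG
  have hT' : (k : ℤ) * (k + 1) = 2 * T := by exact_mod_cast hT
  obtain ⟨j, rfl⟩ := he
  have h2 : ∃ u : ℤ, ((2 * k + 1 : ℤ) ^ 2) ^ j = 1 + 8 * u := by
    have : (2 * k + 1 : ℤ) ^ 2 = 1 + 8 * T := by linear_combination 4 * hT'
    rw [this]
    induction j with
    | zero => exact ⟨0, by simp⟩
    | succ j ih =>
      obtain ⟨u, hu⟩ := ih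
      exact ⟨u + T + 8 * u * T, by rw [pow_succ, hu]; ring⟩
  obtain ⟨u, hu⟩ := h2
  have h3 : ∃ s : ℤ, (-1) ^ (k * (2 * k + 1)) * (2 * k + 1 : ℤ) * (1 + 4 * G) = 1 + 8 * s := by
    rcases Nat.even_or_odd' k with ⟨c, rfl | rfl⟩
    · have hc : T = c * (2 * c + 1) := by nlinarith
      have : Even (c + G) := by
        rw [hc, Nat.mul_mod, Nat.mul_add_mod] at hG
        rw [Nat.even_iff]; omega
      obtain ⟨b, hb⟩ := this
      have hb' : (c : ℤ) + G = b + b := by exact_mod_cast hb
      refine ⟨b + 2 * c * G, ?_⟩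
      rw [Even.neg_one_pow ⟨c * (2 * (2 * c) + 1), by ring⟩]
      push_cast
      linear_combination 4 * hb'
    · have hc : T = (c + 1) * (2 * c + 1) := by nlinarith
      have : Even (c + 1 + G) := by
        rw [hc, Nat.mul_mod, Nat.mul_add_mod] at hG
        rw [Nat.even_iff]; omega
      obtain ⟨b, hb⟩ := this
      have hb' : (c : ℤ) + 1 + G = b + b := by exact_mod_cast hb
      refine ⟨-b - G - 2 * c * G, ?_⟩
      rw [Odd.neg_one_pow ⟨c * (2 * (2 * c + 1) + 1) + (2 * c + 1), by ring⟩]
      push_cast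
      linear_combination -4 * hb'
  obtain ⟨s, hs⟩ := h3
  refine ⟨u + s + 8 * u * s, ?_⟩
  rw [h1, pow_succ (2 * k + 1 : ℤ), pow_mul (2 * k + 1 : ℤ), hu]
  linear_combination (1 + 8 * u) * hs

theorem core_two {A L : Type*} [CommRing A] [IsDomain A] [Field L] (π : A →+* L) (φ : A →+* A)
    (h2L : (2 : L) = 0) (hne : (2 : A) ≠ 0) (hker : ∀ {x}, π x = 0 → ∃ y, x = 2 * y)
    {k r e : ℕ} (he : 4 * (k + r) = 2 * k + e + 1)
    (hpar : (k + r) % 2 = (k * (k + 1) / 2) % 2)
    (a : Fin (2 * k + e + 1) → A) (c : Fin (2 * k + 1) → A)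
    (hainj : Function.Injective fun i => π (a i)) (hcinj : Function.Injective fun i => π (c i))
    (harot : ∀ i, φ (a i) = a (finRotate _ i)) (hcrot : ∀ i, φ (c i) = c (finRotate _ i))
    (H : A[X]) (hHd : H.natDegree = r) (w : A)
    (hsum0 : nodal univ a = nodal univ c + (C w * derivative (nodal univ c)) ^ 2 * H ^ 4) :
    False := by
  have heodd : Odd e := by rw [Nat.odd_iff]; omega
  set B := derivative (nodal univ c) with hB
  have hcd : (nodal univ c).natDegree = 2 * k + 1 := by rw [natDegree_nodal]; simp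
  have hBd : B.natDegree ≤ 2 * k := by
    have := natDegree_derivative_le (nodal univ c)
    rw [← hB] at this
    omega
  have hBc : B.coeff (2 * k) = ((2 * k + 1 : ℕ) : A) := by
    have h1 : (nodal univ c).coeff (2 * k + 1) = 1 := by
      simpa only [hcd] using (nodal_monic (s := univ) (v := c)).coeff_natDegree
    rw [hB, coeff_derivative, h1]; push_cast; ring
  have hsum : nodal univ a = nodal univ c + B * (C w ^ 2 * B * H ^ 4) := by
    rw [hsum0]; ring
  have hne4 : (4 : A) ≠ 0 := by
    rw [show (4 : A) = 2 * 2 by norm_num]; exact mul_ne_zero hne hne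
  -- the derivative of the lift of the large polynomial
  obtain ⟨V, hV⟩ : ∃ V, derivative (nodal univ a) = B * (1 + 4 * V) := by
    have h1 : derivative B = 2 * hasseDeriv 2 (nodal univ c) := by
      have := congrFun (factorial_smul_hasseDeriv (R := A) (k := 2)) (nodal univ c)
      simp only [LinearMap.smul_apply, Function.iterate_succ, Function.iterate_zero,
        Function.comp_apply, id_eq] at this
      rw [hB, ← this]
      simp [Nat.factorial]
    refine ⟨C w ^ 2 * (hasseDeriv 2 (nodal univ c) * H ^ 4 + B * H ^ 3 * derivative H), ?_⟩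
    rw [hsum]
    simp only [derivative_add, derivative_mul, derivative_pow, derivative_C, h1, ← hB, map_natCast]
    push_cast
    ring
  have hnd : (nodal univ a).natDegree = 2 * k + e + 1 := by rw [natDegree_nodal]; simp
  have hW : C 4 * (B * V) = derivative (nodal univ a) - B := by
    rw [hV, map_ofNat]; ring
  have hWd : (B * V).natDegree ≤ 2 * k + e := by
    rw [← natDegree_C_mul hne4, hW]
    refine (natDegree_sub_le _ _).trans (max_le ?_ (by omega))
    have := natDegree_derivative_le (nodal univ a)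
    omega
  have hWc : (B * V).coeff (2 * k + e) = ((k + r : ℕ) : A) := by
    apply mul_left_cancel₀ hne4
    have h0 : B.coeff (2 * k + e) = 0 :=
      coeff_eq_zero_of_natDegree_lt (by have := heodd.pos; omega)
    have h1 : (nodal univ a).coeff (2 * k + e + 1) = 1 := by
      simpa only [hnd] using (nodal_monic (s := univ) (v := a)).coeff_natDegree
    have h3 : ((4 * (k + r) : ℕ) : A) = ((2 * k + e + 1 : ℕ) : A) := by
      rw [he]
    rw [← coeff_C_mul, hW, coeff_sub, h0, coeff_derivative, h1]
    push_cast at h3 ⊢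
    linear_combination -h3
  have hev : ∀ (R : (A)[X]) (x : A),
      π (R.eval x) = (R.map π).eval (π x) := by
    intro R x
    rw [eval_map, eval₂_at_apply]
  have hS : π (∑ i, V.eval (a i) - ((k + r : ℕ) : A)) = 0 := by
    have h1 := coeff_eq_sum (s := univ) (v := fun i => π (a i)) (P := (B * V).map π)
      hainj.injOn (by
        refine (degree_le_of_natDegree_le (natDegree_map_le.trans hWd)).trans_lt ?_
        rw [card_univ, Fintype.card_fin]
        exact_mod_cast Nat.lt_succ_self _)
    rw [card_univ, Fintype.card_fin, Nat.add_sub_cancel, coeff_map, hWc] at h1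
    rw [map_sub, h1, map_sum, sub_eq_zero]
    refine sum_congr rfl fun i _ => ?_
    have h3 : π (B.eval (a i)) = ∏ j ∈ univ.erase i, (π (a i) - π (a j)) := by
      have h4 := congrArg (fun R => π (R.eval (a i))) hV
      simp only [eval_mul, eval_add, eval_one, eval_ofNat, map_mul, map_add, map_one,
        map_ofNat] at h4
      rw [eval_nodal_derivative_eval_node_eq (mem_univ i), eval_nodal, map_prod] at h4
      simp only [map_sub] at h4
      rw [h4]
      linear_combination (-2 * π (B.eval (a i)) * π (V.eval (a i))) * h2L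
    have h5 : ∏ j ∈ univ.erase i, (π (a i) - π (a j)) ≠ 0 :=
      prod_ne_zero_iff.2 fun j hj h0 => (mem_erase.1 hj).1 (hainj (sub_eq_zero.1 h0)).symm
    rw [← hev, eval_mul, map_mul, h3, mul_div_cancel_left₀ _ h5]
  obtain ⟨s, hs⟩ := hker hS
  obtain ⟨z₁, hz₁⟩ := prod_one_add_four univ fun i => V.eval (a i)
  obtain ⟨z₂, hz₂⟩ := int_aux k (k + r) e heodd hpar
  have hz₂' := congrArg (Int.cast : ℤ → A) hz₂
  push_cast at hz₂'
  have hrec : ∏ i, B.eval (a i) =
      (-1) ^ (2 * k * e) * B.coeff (2 * k) ^ e * ∏ j, B.eval (c j) := by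
    have hQ : (C w ^ 2 * B * H ^ 4).natDegree + 2 * k ≤ 2 * k + 1 + e := by
      have h1 : (C w ^ 2 * B * H ^ 4).natDegree ≤ 2 * k + 4 * r := by
        refine natDegree_mul_le.trans (add_le_add ?_ ?_)
        · rw [← C_pow]; exact (natDegree_C_mul_le _ _).trans hBd
        · exact natDegree_pow_le.trans (by rw [hHd])
      omega
    have hcast : 2 * k + 1 + e = 2 * k + e + 1 := by ring
    have := prod_eval_recip (fun i => a (Fin.cast hcast i)) c hBd hQ (by
      rw [← hsum, nodal, nodal]
      exact Fintype.prod_equiv (finCongr hcast) _ _ fun i => rfl)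
    rw [← this]
    exact (Fintype.prod_equiv (finCongr hcast) _ _ fun i => rfl).symm
  have hx := vand_sq a
  have hy := vand_sq c
  have hev4 : Even ((2 * k + e + 1).choose 2) := by
    rw [← he, Nat.choose_two_right, show 4 * (k + r) * (4 * (k + r) - 1) =
      2 * (2 * ((k + r) * (4 * (k + r) - 1))) by ring, Nat.mul_div_cancel_left _ two_pos]
    exact even_two_mul _
  have hsq : ((-1 : A) ^ (2 * k + 1).choose 2) ^ 2 = 1 := by
    rw [← pow_mul, mul_comm, pow_mul]; simp
  rw [hev4.neg_one_pow, one_mul, hV] at hx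
  simp only [eval_mul, eval_add, eval_one, eval_ofNat] at hx
  rw [prod_mul_distrib, hrec, hz₁, hBc, Even.neg_one_pow ⟨k * e, by ring⟩] at hx
  rw [← hB] at hy
  have hP : ∏ j, B.eval (c j) =
      (-1) ^ (2 * k + 1).choose 2 * (Matrix.vandermonde c).det ^ 2 := by
    rw [hy, ← mul_assoc, ← sq, hsq, one_mul]
  refine sign_clash π φ h2L hne hker (x := (Matrix.vandermonde a).det) (y := (Matrix.vandermonde c).det)
    (z := z₂ + (-1) ^ (2 * k + 1).choose 2 * (2 * k + 1) ^ e * (s + z₁)) ?_ ?_ ?_ ?_
  · rw [RingHom.map_det]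
    have : π.mapMatrix (Matrix.vandermonde c) = Matrix.vandermonde fun i => π (c i) := by
      ext i j
      simp [Matrix.vandermonde_apply]
    rw [this]
    exact Matrix.det_vandermonde_ne_zero_iff.2 hcinj
  · rw [hx, hP]
    push_cast at hs ⊢
    linear_combination (Matrix.vandermonde c).det ^ 2 * hz₂' + (Matrix.vandermonde c).det ^ 2 *
      (-1) ^ (2 * k + 1).choose 2 * (2 * k + 1) ^ e * 4 * hs
  · rw [vand_rotate φ harot, Odd.neg_one_pow (by rw [Nat.odd_iff] at heodd ⊢; omega)]
    ring
  · rw [vand_rotate φ hcrot, Even.neg_one_pow (even_two_mul k), one_mul]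

section

variable {K : Type*} [Field K] [Fintype K] [CharP K 2]

local instance : Fact (Nat.Prime 2) := Nat.fact_prime_two

/-- The parity relation in characteristic two. -/
theorem parity_two {F h : K[X]} {k r : ℕ} (hF : F.Monic) (hFd : F.natDegree = 2 * k + 1)
    (hh : h.Monic) (hhd : h.natDegree = r) (hlt : 2 * k + 1 < 4 * (k + r))
    (hpar : (k + r) % 2 = (k * (k + 1) / 2) % 2) (hi : Irreducible F) :
    ¬ Irreducible (F + derivative F ^ 2 * h ^ 4) := by
  intro hf
  set L := AlgebraicClosure K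
  have hsurj : Function.Surjective (constantCoeff : WittVector 2 K →+* K) :=
    constantCoeff_surjective 2
  obtain ⟨F₀, hF₀, hF₀d, hF₀m⟩ :=
    lifts_and_natDegree_eq_and_monic (mem_lifts_of_surjective hsurj F) hF
  obtain ⟨H₀, hH₀, hH₀d, hH₀m⟩ :=
    lifts_and_natDegree_eq_and_monic (mem_lifts_of_surjective hsurj h) hh
  have h2K : (2 : K) = 0 := CharP.cast_eq_zero K 2
  have h2L : (2 : L) = 0 := CharP.cast_eq_zero L 2
  have hmK : constantCoeff (((2 * k + 1 : ℕ) : WittVector 2 K)) = 1 := by
    rw [map_natCast]; push_cast; rw [h2K]; ring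
  have hu : IsUnit (((2 * k + 1 : ℕ) : WittVector 2 K)) := by
    refine isUnit_of_coeff_zero_ne_zero _ ?_
    rw [← constantCoeff_apply, hmK]; exact one_ne_zero
  obtain ⟨w₀, hw₀⟩ := hu.exists_left_inv
  have hw₀K : constantCoeff w₀ = 1 := by
    have := congrArg constantCoeff hw₀
    rwa [map_mul, hmK, mul_one, map_one] at this
  rw [hFd] at hF₀d
  rw [hhd] at hH₀d
  have hB₀c : (derivative F₀).coeff (2 * k) = ((2 * k + 1 : ℕ) : WittVector 2 K) := by
    rw [coeff_derivative, ← hF₀d, hF₀m.coeff_natDegree, one_mul, hF₀d]; push_cast; ring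
  have hB₀d : (derivative F₀).natDegree ≤ 2 * k := by
    have := natDegree_derivative_le F₀
    omega
  have hBw : (C w₀ * derivative F₀).Monic ∧ (C w₀ * derivative F₀).natDegree = 2 * k := by
    have hc : (C w₀ * derivative F₀).coeff (2 * k) = 1 := by rw [coeff_C_mul, hB₀c, hw₀]
    have hle : (C w₀ * derivative F₀).natDegree ≤ 2 * k := (natDegree_C_mul_le _ _).trans hB₀d
    exact ⟨monic_of_natDegree_le_of_coeff_eq_one _ hle hc,
      natDegree_eq_of_le_of_coeff_ne_zero hle (by rw [hc]; exact one_ne_zero)⟩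
  set G₀ := (C w₀ * derivative F₀) ^ 2 * H₀ ^ 4 with hG₀
  have hG₀m : G₀.Monic := (hBw.1.pow 2).mul (hH₀m.pow 4)
  have hG₀d : G₀.natDegree = 4 * (k + r) := by
    rw [hG₀, (hBw.1.pow 2).natDegree_mul (hH₀m.pow 4), hBw.1.natDegree_pow, hH₀m.natDegree_pow,
      hBw.2, hH₀d]
    ring
  have hlt' : F₀.natDegree < G₀.natDegree := by omega
  have hf₀m : (F₀ + G₀).Monic := hG₀m.add_of_right (degree_lt_degree hlt')
  have hf₀d : (F₀ + G₀).natDegree = 4 * (k + r) := by
    rw [natDegree_add_eq_right_of_natDegree_lt hlt', hG₀d]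
  have hf₀ : (F₀ + G₀).map constantCoeff = F + derivative F ^ 2 * h ^ 4 := by
    simp only [hG₀, Polynomial.map_add, Polynomial.map_mul, Polynomial.map_pow, map_C, hw₀K,
      ← derivative_map, hF₀, hH₀, C_1, one_mul]
  obtain ⟨e, he⟩ : ∃ e, 4 * (k + r) = 2 * k + e + 1 := ⟨4 * (k + r) - 2 * k - 1, by omega⟩
  obtain ⟨a, ha, hainj, harot⟩ :=
    hensel_cycle (L := L) hf₀m (hf₀d.trans he) (by rw [hf₀]; exact hf)
  obtain ⟨c, hc, hcinj, hcrot⟩ := hensel_cycle (L := L) hF₀m hF₀d (by rw [hF₀]; exact hi)
  set ι := WittVector.map (p := 2) (algebraMap K L) with hι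
  set φ := WittVector.map (p := 2) (FiniteField.frobeniusAlgHom K L).toRingHom with hφ
  have hne : (2 : WittVector 2 L) ≠ 0 := by
    intro h0
    exact (WittVector.irreducible (k := L) 2).ne_zero (by exact_mod_cast h0)
  refine core_two constantCoeff φ h2L hne cc_eq_zero he hpar a c hainj hcinj harot hcrot
    (H₀.map ι) (by rw [hH₀m.natDegree_map, hH₀d]) (ι w₀) ?_
  rw [← ha, ← hc]
  simp only [hG₀, Polynomial.map_add, Polynomial.map_mul, Polynomial.map_pow, map_C,
    derivative_map]

theorem exists_sq_eq_derivative (F : K[X]) : ∃ t : K[X], t ^ 2 = derivative F := by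
  have h1 : derivative (derivative F) = 0 := by
    have := congrFun (factorial_smul_hasseDeriv (R := K) (k := 2)) F
    simp only [LinearMap.smul_apply, Function.iterate_succ, Function.iterate_zero,
      Function.comp_apply, id_eq] at this
    rw [← this]
    have h2 : ((2 : ℕ) : K[X]) = 0 := CharP.cast_eq_zero K[X] 2
    simp only [Nat.factorial, nsmul_eq_mul, h2, zero_mul, Nat.succ_eq_add_one, Nat.reduceAdd,
      zero_add, mul_one]
  refine ⟨(contract 2 (derivative F)).map (frobeniusEquiv K 2).symm, ?_⟩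
  rw [← map_frobenius_expand 2, map_expand, Polynomial.map_map]
  have : (frobenius K 2).comp (frobeniusEquiv K 2).symm = RingHom.id K := by
    ext x; simp
  rw [this, Polynomial.map_id, expand_contract 2 h1 two_ne_zero]

theorem gap_two (k : ℕ) (hk : 1 ≤ k) : ∃ f : K[X], f.Monic ∧ 2 * k < f.natDegree ∧
    (Fintype.card K - 1) * f.natDegree < 4 * Fintype.card K ^ (k + 1) ∧
    ∀ a : K[X], a.degree ≤ (2 * k : ℕ) → ¬ Irreducible (f + a) := by
  obtain ⟨ε, hε, hpar⟩ : ∃ ε ≤ 1, ((LL K k).natDegree + ε) % 2 = (k * (k + 1) / 2) % 2 :=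
    ⟨((LL K k).natDegree + k * (k + 1) / 2) % 2, by omega, by omega⟩
  set g : K[X] := LL K k * X ^ ε with hg
  have hgm : g.Monic := (LL_monic k).mul (monic_X_pow _)
  have hgd : g.natDegree = (LL K k).natDegree + ε := by
    rw [hg, (LL_monic k).natDegree_mul (monic_X_pow _), natDegree_X_pow]
  have hge := LL_ge (K := K) k
  have hg4 : (g ^ 4).natDegree = 4 * ((LL K k).natDegree + ε) := by rw [hgm.natDegree_pow, hgd]
  have hlt : (X ^ (2 * k + 1) : K[X]).natDegree < (g ^ 4).natDegree := by
    rw [natDegree_X_pow]; omega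
  have hfd : (g ^ 4 + X ^ (2 * k + 1)).natDegree = 4 * ((LL K k).natDegree + ε) := by
    rw [natDegree_add_eq_left_of_natDegree_lt hlt, hg4]
  refine ⟨g ^ 4 + X ^ (2 * k + 1), (hgm.pow 4).add_of_left (degree_lt_degree hlt), by omega, ?_,
    fun a ha => ?_⟩
  · have h1 := LL_geom (K := K) k
    have h2 : (Fintype.card K - 1) * ((LL K k).natDegree + ε) ≤
        (Fintype.card K - 1) * ((LL K k).natDegree + 1) := Nat.mul_le_mul_left _ (by omega)
    rw [hfd, mul_left_comm]
    omega
  have hal : a.degree < (X ^ (2 * k + 1) : K[X]).degree := by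
    rw [degree_X_pow]
    exact ha.trans_lt (by exact_mod_cast Nat.lt_succ_self _)
  set F : K[X] := X ^ (2 * k + 1) + a with hF
  have hFm : F.Monic := (monic_X_pow _).add_of_left hal
  have hFd : F.natDegree = 2 * k + 1 := by
    rw [hF, natDegree_add_eq_left_of_degree_lt hal, natDegree_X_pow]
  rw [add_assoc, ← hF]
  by_cases hi : Irreducible F
  · obtain ⟨t, ht⟩ := exists_sq_eq_derivative F
    have h2K : (2 : K) = 0 := CharP.cast_eq_zero K 2
    have hc : (derivative F).coeff (2 * k) = 1 := by
      rw [coeff_derivative, ← hFd, hFm.coeff_natDegree, one_mul]; push_cast; rw [h2K]; ring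
    have hle : (derivative F).natDegree ≤ 2 * k := by
      have := natDegree_derivative_le F
      omega
    have hBm : (derivative F).Monic := monic_of_natDegree_le_of_coeff_eq_one _ hle hc
    have hBd : (derivative F).natDegree = 2 * k :=
      natDegree_eq_of_le_of_coeff_ne_zero hle (by rw [hc]; exact one_ne_zero)
    have htd : t.natDegree = k := by
      rw [← ht, natDegree_pow] at hBd; omega
    have htm : t.Monic := by
      have h1 : t.leadingCoeff ^ 2 = 1 := by rw [← leadingCoeff_pow, ht, hBm.leadingCoeff]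
      have h3 : (t.leadingCoeff - 1) ^ 2 = 0 := by
        linear_combination h1 + (1 - t.leadingCoeff) * h2K
      exact sub_eq_zero.1 (pow_eq_zero_iff two_ne_zero |>.1 h3)
    obtain ⟨h, hh⟩ : t ∣ g := (dvd_LL htm.ne_zero htd.le).mul_right _
    have hhm : h.Monic := htm.of_mul_monic_left (hh ▸ hgm)
    have hdeg : k + h.natDegree = (LL K k).natDegree + ε := by
      rw [← hgd, hh, htm.natDegree_mul hhm, htd]
    have := parity_two hFm hFd hhm rfl (by omega) (by rw [hdeg, hpar]) hi
    rwa [← ht, ← pow_mul, ← mul_pow, ← hh, add_comm] at this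
  · refine not_irreducible_of_small (k := k) hFm (fun h => ?_) hFd.le (hgm.pow 4) (by omega)
      ((dvd_mul_right _ _).trans (dvd_pow_self g (by norm_num))) hi
    rw [h, natDegree_one] at hFd
    omega

end

end Pool.Agent.P.MP_3bc45c_nt.FF
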