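import Pool.Agent.P.MP_3bc45c_nt.FF.Basic

/-!
Odd characteristic: if `f = F + F' Q` has the same derivative as `F`, the discriminants of `f`
and `F` agree up to an explicit factor, so `f` and `F` cannot both be irreducible.
-/

namespace Pool.Agent.P.MP_3bc45c_nt.FF

open Polynomial Finset Lagrange

variable {K : Type*} [Field K] [Fintype K]

theorem parity_odd (h2 : (2 : K) ≠ 0) {F Q : K[X]} {j n : ℕ} (hF : F.Monic)
    (hFd : F.natDegree = 2 * j + 1) (hj : ((2 * j : ℕ) : K) = 0)
    (hf : (F + derivative F * Q).Monic) (hfd : (F + derivative F * Q).natDegree = 2 * n)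
    (hQ : Q.natDegree + 2 * j ≤ 2 * n) (hlt : j < n) (hpar : n % 2 = j % 2)
    (hder : derivative (F + derivative F * Q) = derivative F) (hi : Irreducible F) :
    ¬ Irreducible (F + derivative F * Q) := by
  intro hf'
  set L := AlgebraicClosure K
  obtain ⟨e, he⟩ : ∃ e, 2 * n = 2 * j + e + 1 := ⟨2 * n - 2 * j - 1, by omega⟩
  obtain ⟨a, hainj, haroot, harot⟩ := frob_cycle (L := L) hf' (hfd.trans he)
  obtain ⟨c, hcinj, hcroot, hcrot⟩ := frob_cycle (L := L) hi hFd
  set ι := algebraMap K L
  have ha : (F + derivative F * Q).map ι = nodal univ a :=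
    eq_nodal (hf.map _) (by rw [hf.natDegree_map, hfd, he]) hainj fun i => by
      rw [eval_map_algebraMap, haroot]
  have hc : F.map ι = nodal univ c :=
    eq_nodal (hF.map _) (by rw [hF.natDegree_map, hFd]) hcinj fun i => by
      rw [eval_map_algebraMap, hcroot]
  set B := derivative (nodal univ c) with hB
  have hBι : (derivative F).map ι = B := by rw [hB, ← hc, derivative_map]
  have hBd : B.natDegree ≤ 2 * j := by
    rw [← hBι]
    have := natDegree_derivative_le F
    exact natDegree_map_le.trans (by omega)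
  have hBc : B.coeff (2 * j) = 1 := by
    rw [← hBι, coeff_map, coeff_derivative, ← hFd, hF.coeff_natDegree, hj]; simp
  have hsum : nodal univ a = nodal univ c + B * Q.map ι := by
    rw [← ha, ← hc, Polynomial.map_add, Polynomial.map_mul, hBι]
  have hda : derivative (nodal univ a) = B := by rw [← ha, derivative_map, hder, hBι]
  have hrec : ∏ i, B.eval (a i) =
      (-1) ^ (2 * j * e) * B.coeff (2 * j) ^ e * ∏ i, B.eval (c i) := by
    have hcast : 2 * j + 1 + e = 2 * j + e + 1 := by ring
    have := prod_eval_recip (fun i => a (Fin.cast hcast i)) c (Q := Q.map ι) hBd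
      (by have := natDegree_map_le (f := ι) (p := Q); omega) (by
      rw [← hsum, nodal, nodal]
      exact Fintype.prod_equiv (finCongr hcast) _ _ fun i => rfl)
    rw [← this]
    exact (Fintype.prod_equiv (finCongr hcast) _ _ fun i => rfl).symm
  have hx := vand_sq a
  have hy := vand_sq c
  rw [hda, hrec, hBc, Even.neg_one_pow (n := 2 * j * e) ⟨j * e, by ring⟩] at hx
  rw [← hB] at hy
  have hs : (-1 : L) ^ (2 * j + e + 1).choose 2 = (-1) ^ (2 * j + 1).choose 2 := by
    have e1 : (2 * j + e + 1).choose 2 = n * (2 * n - 1) := by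
      rw [← he, Nat.choose_two_right, mul_assoc, Nat.mul_div_cancel_left _ two_pos]
    have e2 : (2 * j + 1).choose 2 = j * (2 * j + 1) := by
      rw [Nat.choose_two_right, Nat.add_sub_cancel,
        show (2 * j + 1) * (2 * j) = 2 * (j * (2 * j + 1)) by ring, Nat.mul_div_cancel_left _ two_pos]
    have o1 : Odd (2 * n - 1) := by rw [Nat.odd_iff]; omega
    have o2 : Odd (2 * j + 1) := odd_two_mul_add_one j
    rw [e1, e2, mul_comm n, mul_comm j, pow_mul, pow_mul, o1.neg_one_pow, o2.neg_one_pow,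
      neg_one_pow_eq_pow_mod_two n, neg_one_pow_eq_pow_mod_two j, hpar]
  have hxy : (Matrix.vandermonde a).det ^ 2 = (Matrix.vandermonde c).det ^ 2 := by
    rw [hx, hy, hs]; ring
  have h1 := vand_rotate (FiniteField.frobeniusAlgHom K L).toRingHom harot
  have h3 := vand_rotate (FiniteField.frobeniusAlgHom K L).toRingHom hcrot
  rw [Odd.neg_one_pow (by rw [Nat.odd_iff]; omega)] at h1
  rw [Even.neg_one_pow (even_two_mul j)] at h3
  have h2L : (2 : L) ≠ 0 := by
    intro h; apply h2; apply ι.injective; rw [map_ofNat, h, map_zero]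
  have hy0 : (Matrix.vandermonde c).det ≠ 0 := Matrix.det_vandermonde_ne_zero_iff.2 hcinj
  apply mul_ne_zero h2L hy0
  rcases sq_eq_sq_iff_eq_or_eq_neg.1 hxy with h | h
  · rw [h, h3] at h1; linear_combination h1
  · rw [h, map_neg, h3] at h1; linear_combination -h1

/-- The monic polynomials of degree `N` whose coefficients vanish in the degrees `i` with
`p ∣ i + 1`. -/
theorem exists_family (p N : ℕ) : ∃ D : Finset K[X],
    #D ≤ Fintype.card K ^ (N - N / p) ∧ (∀ b ∈ D, b.Monic ∧ b.natDegree = N) ∧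
    ∀ b : K[X], b.Monic → b.natDegree = N → (∀ i, p ∣ i + 1 → b.coeff i = 0) → b ∈ D := by
  classical
  set J := {i ∈ range N | ¬ p ∣ i + 1} with hJ
  have hJc : #J = N - N / p := by
    have h1 := card_filter_add_card_filter_not (s := range N) (fun i => p ∣ i + 1)
    rw [Nat.card_multiples, card_range, ← hJ] at h1
    omega
  let Φ : (J → K) → K[X] := fun c => X ^ N + ∑ i : J, monomial (i : ℕ) (c i)
  refine ⟨(univ.image Φ).filter fun b => b.Monic ∧ b.natDegree = N, ?_,
    fun b hb => (mem_filter.1 hb).2, fun b hb hN h0 => mem_filter.2 ⟨?_, hb, hN⟩⟩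
  · refine (card_filter_le _ _).trans (card_image_le.trans ?_)
    rw [card_univ, Fintype.card_fun, Fintype.card_coe, hJc]
  · refine mem_image.2 ⟨fun i => b.coeff i, mem_univ _, ?_⟩
    ext n
    have h1 : (∑ i : J, monomial (i : ℕ) (b.coeff i)).coeff n = if n ∈ J then b.coeff n else 0 := by
      rw [sum_coe_sort J (fun i => monomial i (b.coeff i)), finsetSum_coeff]
      simp only [coeff_monomial]
      rw [sum_ite_eq']
    simp only [Φ, coeff_add, coeff_X_pow, h1, hJ, mem_filter, mem_range]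
    rcases lt_trichotomy n N with h | h | h
    · by_cases hp : p ∣ n + 1
      · simp [h.ne, hp, h0 n hp]
      · simp [h.ne, h, hp]
    · subst h
      simp [← hN, hb.coeff_natDegree]
    · have : b.coeff n = 0 := coeff_eq_zero_of_natDegree_lt (by omega)
      simp [h.ne', this]

theorem arith_aux {q p k d l m ε Y : ℕ} (hq : 2 ≤ q) (h1 : (q - 1) * (l + 1) + 1 = q ^ (p * k + 1))
    (hY1 : q ^ (p * k) ≤ Y) (hd : d ≤ Y) (hε : ε ≤ 3) (hm : d * (2 * p * k) + l + ε = 2 * m) :
    2 * (p * m) ≤ p * (2 * p * k + 5) * Y := by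
  have hY0 : 1 ≤ Y := le_trans (Nat.one_le_pow _ _ (by omega)) hY1
  have h3 : l ≤ 2 * Y := by
    obtain ⟨r, rfl⟩ : ∃ r, q = r + 2 := ⟨q - 2, by omega⟩
    rw [pow_succ, show r + 2 - 1 = r + 1 from rfl] at h1
    by_contra hcon
    push Not at hcon
    nlinarith
  have h4 : d * (2 * p * k) ≤ Y * (2 * p * k) := Nat.mul_le_mul_right _ hd
  have h5 : 2 * m ≤ (2 * p * k + 5) * Y := by nlinarith
  rw [mul_assoc p]
  calc 2 * (p * m) = p * (2 * m) := by ring
    _ ≤ _ := Nat.mul_le_mul_left _ h5

theorem gap_odd (p : ℕ) [CharP K p] (hp : p ≠ 2) (k : ℕ) (hk : 1 ≤ k) :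
    ∃ f : K[X], f.Monic ∧ 2 * p * k < f.natDegree ∧
      f.natDegree ≤ p * (2 * p * k + 5) * Fintype.card K ^ (2 * (p - 1) * k) ∧
      ∀ a : K[X], a.degree ≤ (2 * p * k : ℕ) → ¬ Irreducible (f + a) := by
  have hpp : p.Prime := CharP.char_is_prime K p
  have hp3 : 3 ≤ p := by have := hpp.two_le; omega
  have hodd : p % 2 = 1 := hpp.eq_two_or_odd.resolve_left hp
  have hpK : (p : K) = 0 := CharP.cast_eq_zero K p
  have h2 : (2 : K) ≠ 0 := by
    intro h
    have : p ∣ 2 := (CharP.cast_eq_zero_iff K p 2).1 (by exact_mod_cast h)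
    have := Nat.le_of_dvd two_pos this
    omega
  set q := Fintype.card K with hq
  have hq2 : 2 ≤ q := Fintype.one_lt_card
  obtain ⟨D, hDc, hD, hDm⟩ := exists_family (K := K) p (2 * p * k)
  have hexp : 2 * p * k - 2 * p * k / p = 2 * (p - 1) * k := by
    obtain ⟨r, rfl⟩ : ∃ r, p = r + 1 := ⟨p - 1, by omega⟩
    rw [show 2 * (r + 1) * k = (r + 1) * (2 * k) by ring, Nat.mul_div_cancel_left _ r.succ_pos,
      Nat.add_sub_cancel, show (r + 1) * (2 * k) = 2 * r * k + 2 * k by ring, Nat.add_sub_cancel]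
  rw [hexp] at hDc
  set g₀ : K[X] := (∏ b ∈ D, b) * LL K (p * k) with hg₀
  have hPm : (∏ b ∈ D, b).Monic := monic_prod_of_monic _ _ fun b hb => (hD b hb).1
  have hg₀m : g₀.Monic := hPm.mul (LL_monic _)
  have hg₀d : g₀.natDegree = #D * (2 * p * k) + (LL K (p * k)).natDegree := by
    rw [hg₀, hPm.natDegree_mul (LL_monic _), natDegree_prod_of_monic _ _ fun b hb => (hD b hb).1,
      sum_congr rfl fun b hb => (hD b hb).2, sum_const, smul_eq_mul]
  obtain ⟨ε, hε, m, hm, hpar⟩ : ∃ ε ≤ 3, ∃ m, g₀.natDegree + ε = 2 * m ∧ m % 2 = k % 2 :=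
    ⟨(3 * g₀.natDegree + 2 * k) % 4, by omega,
      (g₀.natDegree + (3 * g₀.natDegree + 2 * k) % 4) / 2, by omega, by omega⟩
  set g : K[X] := g₀ * X ^ ε with hg
  have hgm : g.Monic := hg₀m.mul (monic_X_pow _)
  have hgd : g.natDegree = 2 * m := by
    rw [hg, hg₀m.natDegree_mul (monic_X_pow _), natDegree_X_pow, hm]
  have hge := LL_ge (K := K) (p * k)
  have hkm : p * k ≤ m := by omega
  have hkm' : k < m := by
    have : 3 * k ≤ p * k := Nat.mul_le_mul_right _ hp3
    omega
  have hlt0 : p * k < p * m := Nat.mul_lt_mul_of_pos_left hkm' hpp.pos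
  have hgp : (g ^ p).natDegree = 2 * (p * m) := by rw [hgm.natDegree_pow, hgd]; ring
  have hN : 2 * p * k = 2 * (p * k) := by ring
  have hlt : (X ^ (2 * p * k + 1) : K[X]).natDegree < (g ^ p).natDegree := by
    rw [natDegree_X_pow]; omega
  have hfd : (g ^ p + X ^ (2 * p * k + 1)).natDegree = 2 * (p * m) := by
    rw [natDegree_add_eq_left_of_natDegree_lt hlt, hgp]
  refine ⟨g ^ p + X ^ (2 * p * k + 1), (hgm.pow p).add_of_left (degree_lt_degree hlt), by omega, ?_,
    fun a ha => ?_⟩
  · rw [hfd]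
    exact arith_aux hq2 (LL_geom (K := K) (p * k))
      (Nat.pow_le_pow_right (by omega) (Nat.mul_le_mul_right _ (by omega))) hDc hε (hg₀d ▸ hm)
  have hal : a.degree < (X ^ (2 * p * k + 1) : K[X]).degree := by
    rw [degree_X_pow]
    exact ha.trans_lt (by exact_mod_cast Nat.lt_succ_self _)
  set F : K[X] := X ^ (2 * p * k + 1) + a with hF
  have hFm : F.Monic := (monic_X_pow _).add_of_left hal
  have hFd : F.natDegree = 2 * p * k + 1 := by
    rw [hF, natDegree_add_eq_left_of_degree_lt hal, natDegree_X_pow]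
  rw [add_assoc, ← hF]
  by_cases hi : Irreducible F
  · have hz : ((2 * p * k : ℕ) : K) = 0 := by push_cast; rw [hpK]; ring
    have hc : (derivative F).coeff (2 * p * k) = 1 := by
      rw [coeff_derivative, ← hFd, hFm.coeff_natDegree, hz]; simp
    have hle : (derivative F).natDegree ≤ 2 * p * k := by
      have := natDegree_derivative_le F
      omega
    have hBm : (derivative F).Monic := monic_of_natDegree_le_of_coeff_eq_one _ hle hc
    have hBd : (derivative F).natDegree = 2 * p * k :=
      natDegree_eq_of_le_of_coeff_ne_zero hle (by rw [hc]; exact one_ne_zero)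
    have hmem : derivative F ∈ D := hDm _ hBm hBd fun i hi => by
      have : ((i + 1 : ℕ) : K) = 0 := (CharP.cast_eq_zero_iff K p _).2 hi
      push_cast at this
      rw [coeff_derivative, this, mul_zero]
    have hd1 : derivative F ∣ ∏ b ∈ D, b := dvd_prod_of_mem (fun b => b) hmem
    have hd2 : derivative F ∣ g := (hd1.mul_right _).mul_right _
    obtain ⟨Q, hQ⟩ : derivative F ∣ g ^ p := hd2.trans (dvd_pow_self g hpp.ne_zero)
    have hQm : Q.Monic := hBm.of_mul_monic_left (by rw [← hQ]; exact hgm.pow p)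
    have hQd : Q.natDegree + 2 * (p * k) = 2 * (p * m) := by
      rw [← hgp, hQ, hBm.natDegree_mul hQm, hBd]; ring
    have hlt' : F.natDegree < (g ^ p).natDegree := by omega
    have := parity_odd (j := p * k) (n := p * m) (Q := Q) h2 hFm (by omega) (by rw [← hN, hz])
      (by rw [← hQ]; exact (hgm.pow p).add_of_right (degree_lt_degree hlt'))
      (by rw [← hQ, natDegree_add_eq_right_of_natDegree_lt hlt', hgp]) hQd.le hlt0
      (by rw [Nat.mul_mod, Nat.mul_mod p k, hpar])
      (by rw [← hQ, derivative_add, derivative_pow, hpK]; simp) hi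
    rwa [← hQ, add_comm] at this
  · refine not_irreducible_of_small (k := p * k) hFm (fun h => ?_) (by omega) (hgm.pow p) (by omega)
      (((dvd_mul_left _ _).mul_right _).trans (dvd_pow_self g hpp.ne_zero)) hi
    rw [h, natDegree_one] at hFd
    omega

end Pool.Agent.P.MP_3bc45c_nt.FF
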